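import Mathlib

set_option autoImplicit false

/-! Elementary symmetric functions of signs with a positive sum. -/

open Finset Polynomial

namespace Pool.Agent.T4h91.SX

noncomputable def GF (P : Finset ℕ) (x : ℕ → ℝ) : ℝ[X] := ∏ p ∈ P, (1 + C (x p) * X)

lemma gf_coeff (P : Finset ℕ) (x : ℕ → ℝ) (k : ℕ) :
    (GF P x).coeff k = ∑ T ∈ powersetCard k P, ∏ p ∈ T, x p := by
  classical
  unfold GF
  rw [prod_one_add, finsetSum_coeff]
  have h : ∀ T ∈ P.powerset, (∏ p ∈ T, (C (x p) * X : ℝ[X])).coeff k =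
      if T.card = k then ∏ p ∈ T, x p else 0 := by
    intro T _
    rw [prod_mul_distrib, prod_const, ← map_prod C, coeff_C_mul, coeff_X_pow]
    by_cases h : T.card = k
    · rw [if_pos h, if_pos h.symm, mul_one]
    · rw [if_neg h, if_neg (fun h' => h h'.symm), mul_zero]
  rw [sum_congr rfl h, ← sum_filter, powersetCard_eq_filter]

lemma gf_deriv (P : Finset ℕ) (x : ℕ → ℝ) (hx : ∀ p ∈ P, x p ^ 3 = x p) :
    derivative (GF P x) * (1 - X ^ 2) =
      (C (∑ p ∈ P, x p) - C (∑ p ∈ P, x p ^ 2) * X) * GF P x := by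
  classical
  induction P using Finset.induction_on with
  | empty => simp [GF]
  | insert p P hp ih =>
    have ih' := ih fun q hq => hx q (mem_insert_of_mem hq)
    have h3 : C (x p) ^ 3 = (C (x p) : ℝ[X]) := by
      rw [← C_pow, hx p (mem_insert_self p P)]
    unfold GF at ih' ⊢
    rw [prod_insert hp, sum_insert hp, sum_insert hp, derivative_mul]
    have h4 : derivative (1 + C (x p) * X : ℝ[X]) = C (x p) := by simp
    rw [h4]
    set F := ∏ q ∈ P, (1 + C (x q) * X : ℝ[X]) with hF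
    rw [C_add, C_add, C_pow]
    linear_combination (1 + C (x p) * X) * ih' + X ^ 2 * F * h3

lemma rec_pos (P : Finset ℕ) (x : ℕ → ℝ) (hx : ∀ p ∈ P, x p ^ 3 = x p) (k : ℕ) :
    ((k : ℝ) + 2) * (GF P x).coeff (k + 2) = (∑ p ∈ P, x p) * (GF P x).coeff (k + 1) -
      ((∑ p ∈ P, x p ^ 2) - k) * (GF P x).coeff k := by
  have h := congrArg (fun f : ℝ[X] => f.coeff (k + 1)) (gf_deriv P x hx)
  beta_reduce at h
  rw [mul_sub, mul_one, coeff_sub, sub_mul, coeff_sub, coeff_C_mul, coeff_derivative, mul_assoc,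
    coeff_C_mul, mul_comm X (GF P x), coeff_mul_X] at h
  have h2 : (derivative (GF P x) * X ^ 2).coeff (k + 1) = (k : ℝ) * (GF P x).coeff k := by
    rcases k with _ | k
    · rw [coeff_mul_X_pow']
      simp
    · rw [coeff_mul_X_pow', if_pos (by omega), coeff_derivative]
      have : k + 1 + 1 - 2 + 1 = k + 1 := by omega
      rw [this]
      have h3 : ((k + 1 + 1 - 2 : ℕ) : ℝ) = k := by
        have : k + 1 + 1 - 2 = k := by omega
        rw [this]
      rw [h3]
      push_cast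
      ring
  rw [h2] at h
  push_cast at h
  linear_combination h

lemma rec_one (P : Finset ℕ) (x : ℕ → ℝ) :
    (GF P x).coeff 1 = ∑ p ∈ P, x p := by
  rw [gf_coeff, powersetCard_one, sum_map]
  refine sum_congr rfl fun p _ => ?_
  simp

lemma rec_zero (P : Finset ℕ) (x : ℕ → ℝ) : (GF P x).coeff 0 = 1 := by
  rw [gf_coeff, powersetCard_zero, sum_singleton, prod_empty]

/-- If the sum `s` of signs has `4 k |P| ≤ s²` then the `k`-th elementary symmetric function is at
least `(s/2)^k / k!`. -/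
theorem esymm_low (P : Finset ℕ) (x : ℕ → ℝ) (hx : ∀ p ∈ P, x p ^ 3 = x p) (hx1 : ∀ p ∈ P, x p ^ 2 ≤ 1)
    (s : ℝ) (hs : 0 < s) (hsx : s ≤ ∑ p ∈ P, x p) (k : ℕ) (hk : 4 * (k : ℝ) * P.card ≤ s ^ 2) :
    (s / 2) ^ k / (k.factorial : ℝ) ≤ ∑ T ∈ powersetCard k P, ∏ p ∈ T, x p := by
  rw [← gf_coeff]
  set f : ℕ → ℝ := fun j => (GF P x).coeff j with hf
  set Sx := ∑ p ∈ P, x p with hSx
  have hQ0 : 0 ≤ ∑ p ∈ P, x p ^ 2 := sum_nonneg fun _ _ => sq_nonneg _
  have hQ : ∑ p ∈ P, x p ^ 2 ≤ P.card := by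
    calc ∑ p ∈ P, x p ^ 2 ≤ ∑ _p ∈ P, (1 : ℝ) := sum_le_sum hx1
      _ = P.card := by rw [sum_const, nsmul_eq_mul, mul_one]
  have main : ∀ j : ℕ, j < k → 0 < f j ∧ s / 2 * f j ≤ (j + 1) * f (j + 1) := by
    intro j
    induction j with
    | zero =>
      intro _
      have h0 : f 0 = 1 := rec_zero P x
      have h1 : f (0 + 1) = Sx := rec_one P x
      rw [h0, h1]
      refine ⟨one_pos, ?_⟩
      push_cast
      linarith
    | succ j ih =>
      intro hj
      obtain ⟨ih1, ih2⟩ := ih (by omega)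
      have hjp : (0 : ℝ) < (j : ℝ) + 1 := by positivity
      have hpos : 0 < f (j + 1) := by
        have : 0 < ((j : ℝ) + 1) * f (j + 1) := lt_of_lt_of_le (by positivity) ih2
        exact pos_of_mul_pos_right this hjp.le
      refine ⟨hpos, ?_⟩
      have hr : ((j : ℝ) + 2) * f (j + 1 + 1) = Sx * f (j + 1) - ((∑ p ∈ P, x p ^ 2) - j) * f j :=
        rec_pos P x hx j
      push_cast
      have e : ((j : ℝ) + 1 + 1) * f (j + 1 + 1) = ((j : ℝ) + 2) * f (j + 1 + 1) := by ring
      rw [e, hr]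
      -- need  s/2 f_{j+1} ≤ Sx f_{j+1} - (Q - j) f_j
      have h1 : s * f (j + 1) ≤ Sx * f (j + 1) := mul_le_mul_of_nonneg_right hsx hpos.le
      have h2 : ((∑ p ∈ P, x p ^ 2) - j) * f j ≤ P.card * f j := by
        apply mul_le_mul_of_nonneg_right _ ih1.le
        have : (0 : ℝ) ≤ j := Nat.cast_nonneg _
        linarith
      have h3 : (P.card : ℝ) * f j ≤ s / 2 * f (j + 1) := by
        have hjk : ((j : ℝ) + 1) ≤ k := by exact_mod_cast (by omega : j + 1 ≤ k)
        have h4 : 4 * ((j : ℝ) + 1) * P.card ≤ s ^ 2 := by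
          refine le_trans ?_ hk
          have : (0 : ℝ) ≤ P.card := Nat.cast_nonneg _
          nlinarith
        -- multiply by s/2
        have h5 : (P.card : ℝ) * (s / 2 * f j) ≤ P.card * ((j + 1) * f (j + 1)) :=
          mul_le_mul_of_nonneg_left ih2 (Nat.cast_nonneg _)
        have h6 : (P.card : ℝ) * ((j + 1) * f (j + 1)) ≤ s / 2 * (s / 2 * f (j + 1)) := by
          have : (P.card : ℝ) * ((j + 1)) ≤ s ^ 2 / 4 := by linarith
          calc (P.card : ℝ) * ((j + 1) * f (j + 1)) = (P.card : ℝ) * ((j + 1)) * f (j + 1) := by ring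
            _ ≤ s ^ 2 / 4 * f (j + 1) := mul_le_mul_of_nonneg_right this hpos.le
            _ = _ := by ring
        have h7 : s / 2 * (P.card * f j) ≤ s / 2 * (s / 2 * f (j + 1)) := by
          calc s / 2 * (P.card * f j) = P.card * (s / 2 * f j) := by ring
            _ ≤ _ := h5.trans h6
        exact le_of_mul_le_mul_left h7 (by positivity)
      linarith
  have fin : ∀ j : ℕ, j ≤ k → (s / 2) ^ j ≤ (j.factorial : ℝ) * f j := by
    intro j
    induction j with
    | zero =>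
      intro _
      have h0 : f 0 = 1 := rec_zero P x
      rw [h0]; simp
    | succ j ih =>
      intro hj
      have h1 := ih (by omega)
      obtain ⟨h2, h3⟩ := main j (by omega)
      rw [pow_succ, Nat.factorial_succ]
      push_cast
      calc (s / 2) ^ j * (s / 2) ≤ ((j.factorial : ℝ) * f j) * (s / 2) :=
            mul_le_mul_of_nonneg_right h1 (by positivity)
        _ = (j.factorial : ℝ) * (s / 2 * f j) := by ring
        _ ≤ (j.factorial : ℝ) * ((j + 1) * f (j + 1)) := mul_le_mul_of_nonneg_left h3 (by positivity)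
        _ = _ := by ring
  rw [div_le_iff₀ (by positivity)]
  calc (s / 2) ^ k ≤ (k.factorial : ℝ) * f k := fin k le_rfl
    _ = _ := by rw [mul_comm]

/-- comparison with the binomial coefficient -/
theorem esymm_choose (P : Finset ℕ) (x : ℕ → ℝ) (hx : ∀ p ∈ P, x p = 0 ∨ x p = 1 ∨ x p = -1)
    (hs : 19 / 20 * (P.card : ℝ) < ∑ p ∈ P, x p) (k : ℕ) (hk : 20 * k ≤ P.card) :
    ((P.card.choose k : ℕ) : ℝ) ≤ 3 ^ k * ∑ T ∈ powersetCard k P, ∏ p ∈ T, x p := by
  rcases Nat.eq_zero_or_pos P.card with h0 | h0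
  · have hk0 : k = 0 := by omega
    subst hk0
    rw [powersetCard_zero, sum_singleton, prod_empty, Nat.choose_zero_right]
    norm_num
  have hN : (0 : ℝ) < P.card := by exact_mod_cast h0
  have hkr : 20 * (k : ℝ) ≤ P.card := by exact_mod_cast hk
  have h1 := esymm_low P x (fun p hp => by rcases hx p hp with h | h | h <;> rw [h] <;> norm_num)
    (fun p hp => by rcases hx p hp with h | h | h <;> rw [h] <;> norm_num)
    (19 / 20 * P.card) (by positivity) hs.le k (by nlinarith)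
  have h2 : ((P.card.choose k : ℕ) : ℝ) ≤ (P.card : ℝ) ^ k / k.factorial := Nat.choose_le_pow_div k P.card
  have h3 : (P.card : ℝ) ^ k ≤ 3 ^ k * (19 / 20 * (P.card : ℝ) / 2) ^ k := by
    rw [← mul_pow]
    apply pow_le_pow_left₀ hN.le
    linarith
  calc ((P.card.choose k : ℕ) : ℝ) ≤ (P.card : ℝ) ^ k / k.factorial := h2
    _ ≤ (3 ^ k * (19 / 20 * (P.card : ℝ) / 2) ^ k) / k.factorial := by gcongr
    _ = 3 ^ k * ((19 / 20 * (P.card : ℝ) / 2) ^ k / k.factorial) := by ring
    _ ≤ _ := mul_le_mul_of_nonneg_left h1 (by positivity)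

end Pool.Agent.T4h91.SX
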