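import Pool.Agent.H423R2.RZL.HBLS
import Pool.Agent.W57.SW.Base
import Pool.Agent.R345.IYLow
import Pool.Agent.R345.IXPar
import Pool.Agent.T4h91.SX.Kraw

set_option autoImplicit false

/-! Few discriminants have few split small primes, by the large sieve for quadratic characters. -/

open Finset Filter
open scoped Classical

namespace Pool.Agent.T4h91.SX

open Pool.Agent.H38R2.CG Pool.Agent.H38R2.CG2 Pool.Agent.R345.IX
open Pool.Agent.H306R2.RZ (js osf sqf LSB)
open Pool.Agent.W57.SW (prods card_prods prods_spec jacobi_prod)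

lemma low_abs (P : Finset ℕ) (hP : ∀ p ∈ P, p.Prime) (k : ℕ) (f : ℤ) (hk : 20 * k ≤ P.card)
    (h : ∑ p ∈ P, (1 + js f p) < (P.card : ℝ) / 20) :
    ((prods P k).card : ℝ) ≤ 3 ^ k * |∑ s ∈ prods P k, js f s| := by
  classical
  have h0 : ∑ p ∈ P, (1 + js f p) = P.card - ∑ p ∈ P, (-js f p) := by
    rw [sum_add_distrib, sum_const, nsmul_eq_mul, mul_one, sum_neg_distrib]
    ring
  rw [h0] at h
  have h1 := esymm_choose P (fun p => -js f p) (fun p _ => by
    unfold js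
    rcases jacobiSym.trichotomy f p with h | h | h <;> rw [h] <;> norm_num) (by linarith) k hk
  rw [card_prods hP]
  refine h1.trans ?_
  apply mul_le_mul_of_nonneg_left _ (by positivity)
  have h2 : ∑ s ∈ prods P k, js f s = ∑ T ∈ powersetCard k P, ∏ p ∈ T, js f p := by
    rw [prods, sum_image]
    · refine sum_congr rfl fun T hT => ?_
      rw [mem_powersetCard] at hT
      unfold js
      rw [jacobi_prod f T (fun x hx => (hP x (hT.1 hx)).ne_zero)]
      push_cast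
      rfl
    · intro T hT T' hT' h
      rw [mem_coe, mem_powersetCard] at hT hT'
      have h2 := Nat.primeFactors_prod (s := T) fun p hp => hP p (hT.1 hp)
      have h3 := Nat.primeFactors_prod (s := T') fun p hp => hP p (hT'.1 hp)
      simp only at h
      rw [← h2, ← h3, h]
  have h3 : ∑ T ∈ powersetCard k P, ∏ p ∈ T, (-js f p) =
      (-1) ^ k * ∑ T ∈ powersetCard k P, ∏ p ∈ T, js f p := by
    rw [mul_sum]
    refine sum_congr rfl fun T hT => ?_
    rw [mem_powersetCard] at hT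
    rw [prod_neg, hT.2]
  rw [h3, h2]
  refine (le_abs_self _).trans (le_of_eq ?_)
  rw [abs_mul, abs_pow, abs_neg, abs_one, one_pow, one_mul]

/-- the large sieve for a set of squarefree numbers with large character sums -/
lemma sieve_c (Y N : ℕ) (Bd : ℝ) (hLS : LSB Y N Bd) (F : Finset ℕ) (hF : F ⊆ sqf Y)
    (S : Finset ℕ) (hS : S ⊆ osf N) (hS0 : 0 < S.card) (c : ℝ) (hc : 0 < c)
    (h : ∀ f ∈ F, (S.card : ℝ) ≤ c * |∑ m ∈ S, js f m|) :
    (F.card : ℝ) * S.card ≤ c ^ 2 * Bd := by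
  classical
  have hSr : (0 : ℝ) < S.card := by exact_mod_cast hS0
  have h1 := hLS (fun n => if n ∈ S then 1 else 0)
  have hsum : ∀ m : ℕ, ∑ n ∈ osf N, (if n ∈ S then (1 : ℂ) else 0) * (js m n : ℂ) =
      ((∑ n ∈ S, js m n : ℝ) : ℂ) := by
    intro m
    push_cast
    rw [← sum_subset hS (f := fun n => (if n ∈ S then (1 : ℂ) else 0) * (js m n : ℂ))]
    · refine sum_congr rfl fun n hn => ?_
      rw [if_pos hn, one_mul]
    · intro n _ hn
      rw [if_neg hn, zero_mul]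
  have hsum2 : ∑ n ∈ osf N, ‖(if n ∈ S then (1 : ℂ) else 0)‖ ^ 2 = S.card := by
    rw [← sum_subset hS (f := fun n => ‖(if n ∈ S then (1 : ℂ) else 0)‖ ^ 2)]
    · calc ∑ n ∈ S, ‖(if n ∈ S then (1 : ℂ) else 0)‖ ^ 2 = ∑ _n ∈ S, (1 : ℝ) := by
            refine sum_congr rfl fun n hn => ?_
            rw [if_pos hn, norm_one, one_pow]
        _ = S.card := by rw [sum_const, nsmul_eq_mul, mul_one]
    · intro n _ hn
      rw [if_neg hn, norm_zero]
      norm_num
  rw [hsum2] at h1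
  have hlow : (F.card : ℝ) * (S.card : ℝ) ^ 2 ≤ c ^ 2 *
      ∑ m ∈ sqf Y, ‖∑ n ∈ osf N, (if n ∈ S then (1 : ℂ) else 0) * (js m n : ℂ)‖ ^ 2 := by
    calc (F.card : ℝ) * (S.card : ℝ) ^ 2 = ∑ _m ∈ F, (S.card : ℝ) ^ 2 := by
          rw [sum_const, nsmul_eq_mul]
      _ ≤ ∑ m ∈ F, c ^ 2 *
          ‖∑ n ∈ osf N, (if n ∈ S then (1 : ℂ) else 0) * (js m n : ℂ)‖ ^ 2 := by
          refine sum_le_sum fun m hm => ?_
          rw [hsum, Complex.norm_real, Real.norm_eq_abs, ← mul_pow]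
          exact pow_le_pow_left₀ hSr.le (h m hm) 2
      _ = c ^ 2 * ∑ m ∈ F,
          ‖∑ n ∈ osf N, (if n ∈ S then (1 : ℂ) else 0) * (js m n : ℂ)‖ ^ 2 := by rw [mul_sum]
      _ ≤ _ := mul_le_mul_of_nonneg_left
          (sum_le_sum_of_subset_of_nonneg hF fun _ _ _ => by positivity) (by positivity)
  have h2 : (F.card : ℝ) * (S.card : ℝ) ^ 2 ≤ c ^ 2 * (Bd * S.card) :=
    hlow.trans (mul_le_mul_of_nonneg_left h1 (by positivity))
  refine le_of_mul_le_mul_right ?_ hSr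
  calc (F.card : ℝ) * S.card * S.card = (F.card : ℝ) * (S.card : ℝ) ^ 2 := by ring
    _ ≤ c ^ 2 * (Bd * S.card) := h2
    _ = _ := by ring

lemma prods_osf2 (y k N : ℕ) (hy : 2 ≤ y) (hN : (2 * y) ^ k ≤ N) : prods (PP y) k ⊆ osf N := by
  intro s hs
  have hP : ∀ p ∈ PP y, p.Prime ∧ y < p ∧ p ≤ 2 * y := by
    intro p hp
    unfold PP at hp
    rw [mem_filter, mem_Ioc] at hp
    exact ⟨hp.2, hp.1.1, hp.1.2⟩
  obtain ⟨h1, h2, h3, h4, -⟩ := prods_spec (fun p hp => (hP p hp).1) (y := 2 * y)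
    (fun p hp => (hP p hp).2.2) hs
  rw [osf, mem_filter, mem_Icc]
  refine ⟨⟨h1, h2.trans hN⟩, ?_, h4⟩
  rw [← Nat.not_even_iff_odd, even_iff_two_dvd]
  intro h
  have h5 : 2 ∈ s.primeFactors := Nat.mem_primeFactors.2 ⟨Nat.prime_two, h, by omega⟩
  have := (hP 2 (h3 h5)).2.1
  omega

lemma js_four (m p : ℕ) (hp : Odd p) : js ((4 * m : ℕ) : ℤ) p = js (m : ℤ) p := by
  unfold js
  rw [Pool.Agent.R345.IY.four_left p m hp]

/-- the discriminants with few split primes -/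
noncomputable def Low (y X : ℕ) : Finset ℕ := (Finset.Ioc X (2 * X)).filter (fun D => IsFund D ∧
      ∑ p ∈ PP y, (1 + ((jacobiSym (D : ℤ) p : ℤ) : ℝ)) < ((PP y).card : ℝ) / 20)

/-- the radicands with few split primes -/
noncomputable def LowR (y X : ℕ) : Finset ℕ := (sqf (2 * X)).filter (fun m =>
      ∑ p ∈ PP y, (1 + js (m : ℤ) p) < ((PP y).card : ℝ) / 20)

lemma low_two (y X : ℕ) (hy : 2 ≤ y) : (Low y X).card ≤ 2 * (LowR y X).card := by
  classical
  have hodd : ∀ p ∈ PP y, Odd p := by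
    intro p hp
    unfold PP at hp
    rw [mem_filter, mem_Ioc] at hp
    exact hp.2.odd_of_ne_two (by omega)
  have h1 : ((Low y X).filter (fun D => D % 4 = 1)).card ≤ (LowR y X).card := by
    apply card_le_card
    intro D hD
    obtain ⟨hD1, hD2⟩ := mem_filter.1 hD
    unfold Low at hD1
    obtain ⟨hD3, hD4, hD5⟩ := mem_filter.1 hD1
    unfold LowR
    rw [mem_filter, sqf, mem_filter, mem_Icc]
    refine ⟨⟨⟨by omega, (mem_Ioc.1 hD3).2⟩, ?_⟩, hD5⟩
    rcases hD4.2 with h | ⟨m, hm, -, -⟩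
    · exact h.2
    · omega
  have h2 : ((Low y X).filter (fun D => ¬ D % 4 = 1)).card ≤ (LowR y X).card := by
    apply card_le_card_of_injOn (fun D => D / 4)
    · intro D hD
      rw [mem_coe] at hD ⊢
      obtain ⟨hD1, hD2⟩ := mem_filter.1 hD
      unfold Low at hD1
      obtain ⟨hD3, hD4, hD5⟩ := mem_filter.1 hD1
      unfold LowR
      rcases hD4.2 with h | ⟨m, hm, h4, hsq⟩
      · exact absurd h.1 hD2
      · have hDm : D / 4 = m := by omega
        have hD2X := (mem_Ioc.1 hD3).2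
        simp only [hDm]
        rw [mem_filter, sqf, mem_filter, mem_Icc]
        refine ⟨⟨⟨by omega, by omega⟩, hsq⟩, ?_⟩
        refine lt_of_le_of_lt (le_of_eq ?_) hD5
        refine sum_congr rfl fun p hp => ?_
        have h6 := js_four m p (hodd p hp)
        rw [← h6, ← hm]
        rfl
    · intro D hD D' hD' h
      rw [mem_coe] at hD hD'
      obtain ⟨hD1, hD2⟩ := mem_filter.1 hD
      obtain ⟨hD1', hD2'⟩ := mem_filter.1 hD'
      unfold Low at hD1 hD1'
      have hD4 := (mem_filter.1 hD1).2.1.2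
      have hD4' := (mem_filter.1 hD1').2.1.2
      have h' : D / 4 = D' / 4 := h
      rcases hD4 with h3 | ⟨m, hm, -, -⟩
      · exact absurd h3.1 hD2
      rcases hD4' with h3 | ⟨m', hm', -, -⟩
      · exact absurd h3.1 hD2'
      omega
  have h3 := card_filter_add_card_filter_not (s := Low y X) (fun D => D % 4 = 1)
  omega

/-- Very few discriminants have few split primes in `(y, 2y]`, `y = (log X)^a / 4`. -/
theorem low_card2 (a : ℝ) (ha : 1 < a) (ε : ℝ) (hε : 0 < ε) : ∀ᶠ X : ℕ in atTop,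
    ((Low (yI a X) X).card : ℝ) ≤ (X : ℝ) ^ (1 / a + ε) := by
  set η : ℝ := ε / 5 with hη
  have hηp : 0 < η := by positivity
  obtain ⟨C, hC, hLS⟩ := Pool.Agent.H423R2.RZL.HBLSn.HBLS η hηp
  filter_upwards [params a ha η 9 hηp (by norm_num),
    ERRh.ev_const η hηp (6 * C * 2 ^ η), eventually_ge_atTop 1] with X hX hc hX1
  obtain ⟨q1, q2, q3, q4, q5, q6, -⟩ := hX
  have hXr : (1 : ℝ) ≤ X := by exact_mod_cast hX1
  have hX0 : (0 : ℝ) < X := by linarith
  set y := yI a X with hy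
  set k := kI a X with hk
  set M : ℝ := ((PP y).card.choose k : ℝ) with hM
  have hP : ∀ p ∈ PP y, p.Prime := by
    intro p hp
    unfold PP at hp
    exact (mem_filter.1 hp).2
  have hM0 : 0 < M := lt_of_lt_of_le (Real.rpow_pos_of_pos hX0 _) q6
  have hcard : (((prods (PP y) k).card : ℕ) : ℝ) = M := by rw [card_prods hP]
  have hN : (2 * y) ^ k ≤ X := by exact_mod_cast q2
  have hs := sieve_c (2 * X) X _ (hLS (2 * X) X (by omega) hX1) (LowR y X)
    (filter_subset _ _) (prods (PP y) k) (prods_osf2 y k X q1 hN)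
    (by rw [← hcard] at hM0; exact_mod_cast hM0) (3 ^ k) (by positivity) (by
      intro f hf
      exact low_abs (PP y) hP k f q4 (mem_filter.1 hf).2)
  rw [hcard] at hs
  have h2 : ((Low y X).card : ℝ) ≤ 2 * (LowR y X).card := by
    exact_mod_cast low_two y X q1
  have h9 : ((3 : ℝ) ^ k) ^ 2 = 9 ^ k := by
    rw [← pow_mul, mul_comm, pow_mul]; norm_num
  rw [h9] at hs
  -- the size of the bound
  have h3 : C * (((2 * X : ℕ) : ℝ) * X) ^ η * (((2 * X : ℕ) : ℝ) + X) =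
      3 * C * 2 ^ η * ((X : ℝ) ^ η * (X : ℝ) ^ η * X) := by
    push_cast
    rw [show (2 : ℝ) * X * X = 2 * (X * X) by ring, Real.mul_rpow (by norm_num) (by positivity),
      Real.mul_rpow hX0.le hX0.le]
    ring
  rw [h3] at hs
  have hXη : 0 < (X : ℝ) ^ η := Real.rpow_pos_of_pos hX0 _
  have h4 : ((Low y X).card : ℝ) * M ≤ (X : ℝ) ^ η * (X : ℝ) ^ η * ((X : ℝ) ^ η * (X : ℝ) ^ η * X) := by
    calc ((Low y X).card : ℝ) * M ≤ 2 * (LowR y X).card * M :=
          mul_le_mul_of_nonneg_right h2 hM0.le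
      _ = 2 * ((LowR y X).card * M) := by ring
      _ ≤ 2 * (9 ^ k * (3 * C * 2 ^ η * ((X : ℝ) ^ η * (X : ℝ) ^ η * X))) := by linarith
      _ = 9 ^ k * (6 * C * 2 ^ η) * ((X : ℝ) ^ η * (X : ℝ) ^ η * X) := by ring
      _ ≤ _ := by
        apply mul_le_mul_of_nonneg_right _ (by positivity)
        exact mul_le_mul q3 hc (by positivity) hXη.le
  have h5 : ((Low y X).card : ℝ) * (X : ℝ) ^ (1 - 1 / a - η) ≤
      (X : ℝ) ^ (1 / a + ε) * (X : ℝ) ^ (1 - 1 / a - η) := by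
    calc ((Low y X).card : ℝ) * (X : ℝ) ^ (1 - 1 / a - η) ≤ ((Low y X).card : ℝ) * M :=
          mul_le_mul_of_nonneg_left q6 (Nat.cast_nonneg _)
      _ ≤ _ := h4
      _ = (X : ℝ) ^ (1 / a + ε) * (X : ℝ) ^ (1 - 1 / a - η) := by
        have e : (X : ℝ) ^ η * (X : ℝ) ^ η * ((X : ℝ) ^ η * (X : ℝ) ^ η * X) =
            (X : ℝ) ^ η * (X : ℝ) ^ η * ((X : ℝ) ^ η * (X : ℝ) ^ η * (X : ℝ) ^ (1 : ℝ)) := by
          rw [Real.rpow_one]
        rw [e, ← Real.rpow_add hX0, ← Real.rpow_add hX0, ← Real.rpow_add hX0, ← Real.rpow_add hX0]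
        congr 1
        rw [hη]
        ring
  exact le_of_mul_le_mul_right h5 (Real.rpow_pos_of_pos hX0 _)

end Pool.Agent.T4h91.SX
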