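import Pool.Agent.R345.IYFin
import Pool.Agent.T4h91.SX.Low

/-!
# Classes of short products of small primes, with a smaller exceptional set
-/

set_option autoImplicit false

namespace Pool.Agent.T4h91.SX

open Finset Filter NumberField Pool.Agent.H38R2.CG Pool.Agent.H38R2.CG2 Pool.Agent.R345.IX
open Pool.Agent.R345.IY
open scoped Classical

/-- few exceptional discriminants in a dyadic interval -/
theorem count_bad3 (hN0 : P_N0) (hN1 : P_N1) (hN3 : P_N3) (h4 : P_N4) (hKF : P_KF)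
    (h5b : P_N5b) (hN6 : P_N6) (hN3a : P_N3a) (a : ℝ) (ha : 1 < a) (ε : ℝ)
    (hε : 0 < ε) : ∃ X0 : ℕ, ∀ X ≥ X0,
    (((Finset.Ioc X (2 * X)).filter (fun D => IsFund D ∧
      BadJ a (1 / (2 * a) + ε) X D)).card : ℝ) ≤ (X : ℝ) ^ (1 / a + ε) := by
  obtain ⟨C, hC, hLone⟩ := Lone_le hN3a
  have ha0 : 0 < a := by linarith
  set η : ℝ := ε / 4 with hη
  have hηpos : 0 < η := by positivity
  rw [← Filter.eventually_atTop]
  have hpar := params a ha η 12800 hηpos (by norm_num)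
  have hpk := params_k a ha η hηpos
  have hpi := low_card2 a ha ε hε
  have hlog1 := ERRh.ev_log (η / 2) (by positivity)
  have hc1 := ERRh.ev_const (η / 2) (by positivity) (max (2 * C) 4)
  filter_upwards [hpar, hpk, hpi, hlog1, hc1, eventually_ge_atTop 1]
    with X hX hXk hlow hl1 hk1 hX1
  obtain ⟨q1, q2, q3, q4, q5, q6, q7, q8, q9, -⟩ := hX
  obtain ⟨r1, r2, r3, r4⟩ := hXk
  have hXr : (1 : ℝ) ≤ X := by exact_mod_cast hX1
  have hX0 : (0 : ℝ) < X := by linarith
  have hlogX : 0 ≤ Real.log X := Real.log_natCast_nonneg X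
  have hXh : 0 < (X : ℝ) ^ (η / 2) := Real.rpow_pos_of_pos hX0 _
  have hsub : ((Finset.Ioc X (2 * X)).filter (fun D => IsFund D ∧
      BadJ a (1 / (2 * a) + ε) X D)) ⊆ ((Finset.Ioc X (2 * X)).filter (fun D => IsFund D ∧
      ∑ p ∈ PP (yI a X), (1 + ((jacobiSym (D : ℤ) p : ℤ) : ℝ)) <
        ((PP (yI a X)).card : ℝ) / 20)) := by
    intro D hD
    obtain ⟨hD1, hD2, hD3⟩ := Finset.mem_filter.1 hD
    obtain ⟨hDa, hDb⟩ := Finset.mem_Ioc.1 hD1
    rw [Finset.mem_filter]
    refine ⟨hD1, hD2, ?_⟩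
    by_contra hcon
    rw [not_lt] at hcon
    have hB : (12800 : ℝ) ^ (kJ a X) ≤ (X : ℝ) ^ η := by
      refine le_trans ?_ q3
      exact pow_le_pow_right₀ (by norm_num) (by omega)
    have := not_bad2 hN0 hN1 hN3 h4 hKF h5b hN6 a η C ha hC hLone X D hD2 hDa hDb hX1 q1 hB r2 r1
      r4 (by
        have h2C : 2 * C ≤ (X : ℝ) ^ (η / 2) := (le_max_left _ _).trans hk1
        calc C * (2 + Real.log X) ≤ C * (2 * (1 + Real.log X)) := by gcongr; linarith
          _ = (2 * C) * (1 + Real.log X) := by ring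
          _ ≤ (X : ℝ) ^ (η / 2) * (X : ℝ) ^ (η / 2) := by gcongr
          _ = (X : ℝ) ^ η := by rw [← Real.rpow_add hX0]; congr 1; ring) (by
        have h4 : (4 : ℝ) ≤ (X : ℝ) ^ (η / 2) := (le_max_right _ _).trans hk1
        have h5 : (X : ℝ) ^ (η / 2) ≤ (X : ℝ) ^ η :=
          Real.rpow_le_rpow_of_exponent_le hXr (by linarith)
        linarith) hcon
    apply this
    have e1 : 1 / (2 * a) + 4 * η = 1 / (2 * a) + ε := by rw [hη]; ring
    rw [e1]
    exact hD3
  refine le_trans ?_ hlow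
  exact Nat.cast_le.2 (Finset.card_le_card hsub)

/-- **Main theorem.** All but `O(X^(1/a+ε))` radicands up to X are good. -/
theorem main3 (a : ℝ) (ha : 1 < a) (ε : ℝ) (hε : 0 < ε) : ∃ C : ℝ, 0 < C ∧
    ∀ X : ℕ, (((Finset.Icc 2 X).filter (fun d => Squarefree d ∧
      ¬ GoodJ a (1 / (2 * a) + ε) d)).card : ℝ) ≤ C * (X : ℝ) ^ (1 / a + ε) := by
  have h_P_N0 : P_N0 := T_N0
  have h_P_N0d : P_N0d := T_N0d
  have h_P_SPL : P_SPL := T_SPL h_P_N0
  have h_P_N1 : P_N1 := T_N1 h_P_SPL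
  have h_P_N2 : P_N2 := T_N2 h_P_SPL
  have h_P_KR : P_KR := T_KR
  have h_P_PV : P_PV := T_PV
  have h_P_N3a : P_N3a := T_N3a h_P_KR h_P_PV
  have h_P_N3b : P_N3b := T_N3b h_P_KR h_P_PV h_P_N3a
  have h_P_N3 : P_N3 := T_N3 h_P_N2 h_P_N3b
  have h_P_N4a : P_N4a := T_N4a
  have h_P_N4b : P_N4b := T_N4b
  have h_P_N4 : P_N4 := T_N4 h_P_N4a h_P_N4b
  have h_P_KF : P_KF := T_KF
  have h_P_N5b : P_N5b := T_N5b h_P_KF h_P_N4
  have h_P_N6 : P_N6 := T_N6 h_P_KF
  obtain ⟨X0, hX0⟩ := count_bad3 h_P_N0 h_P_N1 h_P_N3 h_P_N4 h_P_KF h_P_N5b h_P_N6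
    h_P_N3a a ha (ε / 2) (by positivity)
  have ha0 : 0 < a := by linarith
  set θ : ℝ := 1 / (2 * a) with hθ
  have hθ0 : 0 ≤ θ := by positivity
  set κ : ℝ := 1 / a + ε / 2 with hκ
  have hκ0 : 0 < κ := by positivity
  obtain ⟨X1, hX1⟩ := Filter.eventually_atTop.1 (params a ha 1 1 one_pos le_rfl)
  obtain ⟨X3, hX3⟩ := Filter.eventually_atTop.1 (params_k a ha 1 one_pos)
  obtain ⟨X2, hX2⟩ := Filter.eventually_atTop.1
    (ERRh.ev_const (ε / 2) (by positivity) ((4 : ℝ) ^ (θ + ε / 2)))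
  -- a bad radicand gives a bad discriminant
  have key : ∀ Y : ℕ, X2 ≤ Y → 1 ≤ Y → ∀ d : ℕ, Y < d → d ≤ 2 * Y →
      Squarefree d → ¬ GoodJ a (θ + ε) d → ∀ X : ℕ, X1 ≤ X → X3 ≤ X → X ≤ 4 * d → d ≤ 2 * X →
      IsFund (Dof d) ∧ BadJ a (θ + ε / 2) X (Dof d) := by
    intro Y hY2 hY1 d hd1 hd2 hsq hbad X hXX1 hXX3 hX4 hdX
    have hd : 1 < d := by omega
    refine ⟨isFund_Dof hd hsq, ?_⟩
    unfold GoodJ at hbad
    push Not at hbad
    obtain ⟨K, i1, i2, h2, hx, hlt⟩ := hbad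
    refine ⟨K, i1, i2, h2, ?_, ?_⟩
    · rw [h_P_N0d K d hd hsq h2 hx]
      unfold Dof
      split_ifs <;> push_cast <;> rfl
    · intro hle
      refine absurd hle (not_le.2 (lt_of_le_of_lt ?_ hlt))
      have hdr : (0 : ℝ) < d := by
        have : 0 < d := by omega
        exact_mod_cast this
      obtain ⟨-, -, -, -, -, -, -, -, -, hfin⟩ := hX1 X hXX1
      obtain ⟨-, -, hk3, -⟩ := hX3 X hXX3
      obtain ⟨g1, g2⟩ := hfin d (by
        have : (X : ℝ) ≤ 4 * d := by exact_mod_cast hX4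
        linarith) (by exact_mod_cast hdX)
      have g3 : ((kJ a X : ℕ) : ℝ) ≤ Real.log d / (2 * Real.log (Real.log d)) := by
        have h6 : (2 : ℝ) * ((kJ a X : ℕ) : ℝ) ≤ kI a X := by exact_mod_cast hk3
        have h7 : Real.log d / (2 * Real.log (Real.log d)) =
            (Real.log d / Real.log (Real.log d)) / 2 := by
          rw [div_div, mul_comm]
        rw [h7]
        linarith
      have hsub : Reach K ((2 * yI a X : ℕ) : ℝ) (kJ a X) ⊆
          Reach K ((Real.log d) ^ a) (Real.log d / (2 * Real.log (Real.log d))) :=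
        reach_mono (by push_cast; exact g1) g3
      have hcard : ((Reach K ((2 * yI a X : ℕ) : ℝ) (kJ a X)).ncard : ℝ) ≤
          ((Reach K ((Real.log d) ^ a) (Real.log d / (2 * Real.log (Real.log d)))).ncard : ℝ) := by
        exact_mod_cast Set.ncard_le_ncard hsub (Set.toFinite _)
      have hpow : (X : ℝ) ^ (θ + ε / 2) ≤ (d : ℝ) ^ (θ + ε) := by
        have h4d : (4 : ℝ) ^ (θ + ε / 2) ≤ (d : ℝ) ^ (ε / 2) := hX2 d (by omega)
        calc (X : ℝ) ^ (θ + ε / 2) ≤ (4 * (d : ℝ)) ^ (θ + ε / 2) := by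
              apply Real.rpow_le_rpow (Nat.cast_nonneg _) _ (by positivity)
              exact_mod_cast hX4
          _ = (4 : ℝ) ^ (θ + ε / 2) * (d : ℝ) ^ (θ + ε / 2) :=
              Real.mul_rpow (by norm_num) hdr.le
          _ ≤ (d : ℝ) ^ (ε / 2) * (d : ℝ) ^ (θ + ε / 2) := by gcongr
          _ = (d : ℝ) ^ (θ + ε) := by
              rw [← Real.rpow_add hdr]
              congr 1
              ring
      exact mul_le_mul hpow hcard (Nat.cast_nonneg _) (by positivity)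
  have hdy := dyadic2 (fun S => (S.filter (fun d => Squarefree d ∧ ¬ GoodJ a (θ + ε) d)).card)
    (fun d => Squarefree d ∧ ¬ GoodJ a (θ + ε) d) (fun S => by congr) κ (1 + 4 ^ κ) hκ0
    (by positivity) (max (max X0 X1) (max (max X2 X3) 1)) (by
      intro Y hY
      have hY0 : X0 ≤ Y := le_trans (le_trans (le_max_left _ _) (le_max_left _ _)) hY
      have hY1 : X1 ≤ Y := le_trans (le_trans (le_max_right _ _) (le_max_left _ _)) hY
      have hY2 : X2 ≤ Y := le_trans (le_trans (le_trans (le_max_left _ _) (le_max_left _ _))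
        (le_max_right _ _)) hY
      have hY3' : X3 ≤ Y := le_trans (le_trans (le_trans (le_max_right _ _) (le_max_left _ _))
        (le_max_right _ _)) hY
      have hY3 : 1 ≤ Y := le_trans (le_trans (le_max_right _ _) (le_max_right _ _)) hY
      have hYr : (0 : ℝ) < Y := by exact_mod_cast hY3
      set S := (Finset.Ioc Y (2 * Y)).filter (fun d => Squarefree d ∧ ¬ GoodJ a (θ + ε) d) with hS
      set A := (Finset.Ioc Y (2 * Y)).filter (fun D => IsFund D ∧ BadJ a (θ + ε / 2) Y D) with hA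
      set B := (Finset.Ioc (4 * Y) (2 * (4 * Y))).filter
        (fun D => IsFund D ∧ BadJ a (θ + ε / 2) (4 * Y) D) with hB
      have hA' := hX0 Y hY0
      have hB' := hX0 (4 * Y) (by omega)
      have hinj : S.card ≤ (A ∪ B).card := by
        refine Finset.card_le_card_of_injOn Dof ?_ ?_
        · intro d hd
          rw [Finset.mem_coe] at hd ⊢
          obtain ⟨h1, h2, h3⟩ := Finset.mem_filter.1 hd
          obtain ⟨h4, h5⟩ := Finset.mem_Ioc.1 h1
          rw [Finset.mem_union]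
          by_cases h : d % 4 = 1
          · left
            have hDof : Dof d = d := by unfold Dof; rw [if_pos h]
            have hk := key Y hY2 hY3 d h4 h5 h2 h3 Y hY1 hY3' (by omega) (by omega)
            rw [hA, Finset.mem_filter, Finset.mem_Ioc]
            exact ⟨by rw [hDof]; exact ⟨h4, h5⟩, hk⟩
          · right
            have hDof : Dof d = 4 * d := by unfold Dof; rw [if_neg h]
            have hk := key Y hY2 hY3 d h4 h5 h2 h3 (4 * Y) (by omega) (by omega)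
              (by omega) (by omega)
            rw [hB, Finset.mem_filter, Finset.mem_Ioc]
            exact ⟨by rw [hDof]; omega, hk⟩
        · intro d _ d' _ hdd
          unfold Dof at hdd
          split_ifs at hdd <;> omega
      have h1 : (S.card : ℝ) ≤ A.card + B.card := by
        exact_mod_cast hinj.trans (Finset.card_union_le _ _)
      have h4Y : (((4 * Y : ℕ) : ℝ)) ^ κ = 4 ^ κ * (Y : ℝ) ^ κ := by
        push_cast
        rw [Real.mul_rpow (by norm_num) hYr.le]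
      show ((S.card : ℕ) : ℝ) ≤ (1 + 4 ^ κ) * (Y : ℝ) ^ κ
      rw [h4Y] at hB'
      linarith)
  obtain ⟨C, hC, hfin⟩ := hdy
  refine ⟨C, hC, fun X => ?_⟩
  rcases Nat.eq_zero_or_pos X with h0 | h0
  · subst h0
    have h1 := hfin 0
    have h2 : ((0 : ℕ) : ℝ) ^ κ = 0 := by
      rw [Nat.cast_zero]
      exact Real.zero_rpow hκ0.ne'
    rw [h2, mul_zero] at h1
    refine h1.trans ?_
    positivity
  · refine (hfin X).trans ?_
    have hXr : (1 : ℝ) ≤ X := by exact_mod_cast h0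
    have : (X : ℝ) ^ κ ≤ (X : ℝ) ^ (1 / a + ε) :=
      Real.rpow_le_rpow_of_exponent_le hXr (by linarith)
    gcongr



end Pool.Agent.T4h91.SX
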